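import Pool.Agent.N848.SM.Stm
import Pool.Agent.N883.FF.Den3

/-!
# Project SM (helper848), part DEN: one ninth of the cube-free primary elements are 1 modulo 9

Port of `Pool/Agent/N883/FF/Den3.lean` (helper169), by helper300.
-/

set_option autoImplicit false
set_option linter.unusedVariables false

open scoped Classical

namespace Pool.Agent.N300.SM

open Finset
open Pool.Agent.Y692.QS (Ei w nr toC nr_mul nr_nonneg)
open Pool.Agent.Y715.T.RecG (Pq)
open Pool.Agent.Y699.E (ez nrm QB ZB PB prm mem_ZB mem_QB csum nrm_cast nrm_eq' nrm_mul nrm_ne nrm_pos'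
  prm_mul prm_cancel prm_ne_zero prm_one norm_ez ez_add ez_ne ez_zero sum_ez norm_le_of_dvd
  exists_PP not_dvd_three card_ZB_le pq_ne)
open Pool.Agent.N883.FF (nq ClP)
open Pool.Agent.N883.FF.Den3 (nr_prm nq_zero nq_mul nine_three prm_per nq_per nq_four prm_four G q0
  q0_ne q0_cop nine_ne CF CF_sub diff_card card_CF)
open Pool.Agent.N848.SM (mq S_DEN9)

/-- the shape of a primary element -/
theorem prm_shape {a : Ei} (h : prm a) : ∃ b : Ei, a = 1 + 3 * b ∧ a.re = 1 + 3 * b.re ∧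
    a.im = 3 * b.im := by
  obtain ⟨b, hb⟩ := h
  have ha : a = 1 + 3 * b := by rw [← hb]; ring
  refine ⟨b, ha, ?_, ?_⟩
  · rw [ha]
    simp [QuadraticAlgebra.re_ofNat, QuadraticAlgebra.im_ofNat]
    rfl
  · rw [ha]
    simp [QuadraticAlgebra.re_ofNat, QuadraticAlgebra.im_ofNat]
    rfl

theorem mq_of {a : Ei} {y : ℤ} (h : a.im = 3 * y) : mq a = (y : ZMod 3) := by
  unfold mq
  rw [h, Int.mul_ediv_cancel_left _ (by norm_num)]

theorem three_zero : (3 : ZMod 3) = 0 := by decide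

theorem mq_mul {a b : Ei} (ha : prm a) (hb : prm b) : mq (a * b) = mq a + mq b := by
  obtain ⟨x, -, ha1, ha2⟩ := prm_shape ha
  obtain ⟨y, -, hb1, hb2⟩ := prm_shape hb
  obtain ⟨z, hz⟩ : ∃ z : ℤ, (a * b).im = 3 * (x.im + y.im + 3 * z) := by
    refine ⟨x.re * y.im + x.im * y.re - x.im * y.im, ?_⟩
    have h1 : (a * b).im = a.re * b.im + a.im * b.re - a.im * b.im := by
      simp
      try ring
    rw [h1, ha1, ha2, hb1, hb2]
    ring
  rw [mq_of hz, mq_of ha2, mq_of hb2]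
  push_cast
  rw [three_zero]
  ring

theorem mq_per {a b : Ei} (h : (9 : Ei) ∣ a - b) (ha : prm a) : mq a = mq b := by
  have hb := prm_per h ha
  obtain ⟨d, hd⟩ := h
  have hab : a = b + 9 * d := by rw [← hd]; ring
  have h2 : a.im = b.im + 9 * d.im := by
    rw [hab]
    simp [QuadraticAlgebra.re_ofNat, QuadraticAlgebra.im_ofNat]
  obtain ⟨y, -, hb1, hb2⟩ := prm_shape hb
  have h3 : a.im = 3 * (y.im + 3 * d.im) := by
    rw [h2, hb2]
    ring
  rw [mq_of h3, mq_of hb2]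
  push_cast
  rw [three_zero]
  ring

/-- the combined label -/
def ll (t s : ZMod 3) (a : Ei) : ZMod 3 := t * nq a + s * mq a

theorem ll_mul (t s : ZMod 3) {a b : Ei} (ha : prm a) (hb : prm b) :
    ll t s (a * b) = ll t s a + ll t s b := by
  unfold ll
  rw [nq_mul ha hb, mq_mul ha hb]
  ring

theorem ll_per (t s : ZMod 3) {a b : Ei} (h : (9 : Ei) ∣ a - b) (ha : prm a) :
    ll t s a = ll t s b := by
  unfold ll
  rw [nq_per h ha, mq_per h ha]

/-- an element with a nonzero label -/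
theorem exists_ll {t s : ZMod 3} (h : t ≠ 0 ∨ s ≠ 0) : ∃ c : Ei, prm c ∧ ll t s c ≠ 0 := by
  by_cases ht : t = 0
  · have hs : s ≠ 0 := h.resolve_left (fun h => h ht)
    refine ⟨⟨1, 3⟩, ⟨⟨0, 1⟩, by decide⟩, ?_⟩
    have h1 : mq ⟨1, 3⟩ = 1 := by decide
    unfold ll
    rw [ht, zero_mul, zero_add, h1, mul_one]
    exact hs
  · refine ⟨4, prm_four, ?_⟩
    have h1 : mq 4 = 0 := by decide
    unfold ll
    rw [nq_four, h1, mul_zero, add_zero]
    have key : ∀ t : ZMod 3, t ≠ 0 → t * 2 ≠ 0 := by decide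
    exact key t ht

/-- cancellation of the character sum -/
theorem csum' (P : ℕ) (t s : ZMod 3) (h : t ≠ 0 ∨ s ≠ 0) (V : ℕ) :
    ‖∑ a ∈ (ZB V).filter (G P), ez (ll t s a)‖ ≤ 3 * nrm (9 * q0 P) * (3 * Real.sqrt V + 1) := by
  rw [sum_filter]
  obtain ⟨x, y, hxy⟩ := q0_cop P
  obtain ⟨c₀, hc₀, hl₀⟩ := exists_ll h
  set c : Ei := 1 + (c₀ - 1) * (x * q0 P) with hc
  have hc4 : (9 : Ei) ∣ c₀ - c := ⟨(c₀ - 1) * y, by rw [hc]; linear_combination (1 - c₀) * hxy⟩
  have hprm : prm c := prm_per hc4 hc₀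
  have hnq : ll t s c = ll t s c₀ := (ll_per t s hc4 hc₀).symm
  have hcop0 : IsCoprime c (q0 P) := ⟨1, -((c₀ - 1) * x), by rw [hc]; ring⟩
  have hcop9 : IsCoprime c 9 := by
    obtain ⟨b, hb⟩ := hprm
    have h1 : IsCoprime c 3 := ⟨1, -b, by linear_combination hb⟩
    have h2 : (9 : Ei) = 3 ^ 2 := by norm_num
    rw [h2]
    exact h1.pow_right
  have hz : ez (ll t s c) ≠ 1 := by
    apply ez_ne
    rw [hnq]
    exact hl₀
  have hGc : ∀ a, G P (c * a) ↔ G P a := by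
    intro a
    unfold G
    refine and_congr ⟨fun h => prm_cancel hprm h, fun h => prm_mul hprm h⟩ ?_
    refine forall₂_congr fun π hπ => not_congr ?_
    have h1 : IsCoprime (π ^ 3) c := by
      have h2 : π ^ 3 ∣ q0 P := dvd_prod_of_mem (fun π => π ^ 3) hπ
      exact (hcop0.symm).of_isCoprime_of_dvd_left h2
    exact ⟨fun h => h1.dvd_of_dvd_mul_left h, fun h => h.mul_left _⟩
  refine csum (mul_ne_zero nine_ne (q0_ne P)) ?_ ?_ (IsCoprime.mul_right hcop9 hcop0) hz ?_ V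
  · intro a b hab
    have h9 : (9 : Ei) ∣ a - b := (dvd_mul_right _ _).trans hab
    have h0 : q0 P ∣ a - b := (dvd_mul_left _ _).trans hab
    have hG : ∀ a b : Ei, (9 : Ei) * q0 P ∣ a - b → G P a → G P b := by
      intro a b hab h
      have h9 : (9 : Ei) ∣ a - b := (dvd_mul_right _ _).trans hab
      have h0 : q0 P ∣ a - b := (dvd_mul_left _ _).trans hab
      refine ⟨prm_per h9 h.1, fun π hπ hd => h.2 π hπ ?_⟩
      have h2 : π ^ 3 ∣ q0 P := dvd_prod_of_mem (fun π => π ^ 3) hπ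
      have h3 : a = (a - b) + b := by ring
      rw [h3]
      exact dvd_add (h2.trans h0) hd
    by_cases hGa : G P a
    · rw [if_pos hGa, if_pos (hG a b hab hGa), ll_per t s h9 hGa.1]
    · have hGb : ¬ G P b := fun h => hGa (hG b a (by rw [← neg_sub]; exact (dvd_neg).2 hab) h)
      rw [if_neg hGa, if_neg hGb]
  · intro a
    split_ifs
    · rw [norm_ez]
    · rw [norm_zero]; norm_num
  · intro a
    by_cases h : G P a
    · rw [if_pos h, if_pos ((hGc a).2 h), ll_mul t s hprm h.1, ez_add]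
    · rw [if_neg h, if_neg (fun hh => h ((hGc a).1 hh)), mul_zero]

/-- the character sums over the cube-free elements are small -/
theorem small (t s : ZMod 3) (hts : t ≠ 0 ∨ s ≠ 0) : ∀ ε : ℝ, 0 < ε → ∃ X₀ : ℕ, ∀ X : ℕ, X₀ ≤ X →
    ‖∑ a ∈ CF X, ez (ll t s a)‖ ≤ ε * X := by
  intro ε hε
  obtain ⟨C, hC, hD⟩ := diff_card
  obtain ⟨P, hP⟩ := exists_nat_ge (2 * C / ε + 1)
  have hP1 : 1 ≤ P := by
    have : (1 : ℝ) ≤ P := le_trans (by have : 0 ≤ 2 * C / ε := by positivity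
                                       linarith) hP
    exact_mod_cast this
  have hP0 : (0 : ℝ) < P := by exact_mod_cast hP1
  set K : ℝ := 3 * nrm (9 * q0 P) with hK
  have hK0 : 0 ≤ K := by rw [hK]; positivity
  obtain ⟨X₀, hX₀⟩ := exists_nat_ge ((8 * K / ε) ^ 2 + 1)
  refine ⟨X₀, fun X hX => ?_⟩
  have hX1 : (8 * K / ε) ^ 2 + 1 ≤ (X : ℝ) := hX₀.trans (by exact_mod_cast hX)
  have hXone : (1 : ℝ) ≤ X := by nlinarith [sq_nonneg (8 * K / ε)]
  have hsq : 8 * K / ε ≤ Real.sqrt X := by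
    refine Real.le_sqrt_of_sq_le ?_
    linarith
  have hs1 : 1 ≤ Real.sqrt X := Real.one_le_sqrt.2 hXone
  have hss : Real.sqrt X * Real.sqrt X = X := Real.mul_self_sqrt (by positivity)
  have h1 : ∑ a ∈ CF X, ez (ll t s a) = ∑ a ∈ (ZB X).filter (G P), ez (ll t s a) -
      ∑ a ∈ ((ZB X).filter (G P)) \ CF X, ez (ll t s a) := by
    rw [← sum_sdiff (CF_sub X P)]
    ring
  have h2 : ‖∑ a ∈ ((ZB X).filter (G P)) \ CF X, ez (ll t s a)‖ ≤ ε / 2 * X := by
    calc _ ≤ ∑ a ∈ ((ZB X).filter (G P)) \ CF X, ‖ez (ll t s a)‖ := norm_sum_le _ _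
      _ = ((((ZB X).filter (G P)) \ CF X).card : ℝ) := by
          rw [sum_congr rfl (fun a _ => norm_ez _), sum_const, nsmul_eq_mul, mul_one]
      _ ≤ C * X / P := hD X P hP1
      _ ≤ ε / 2 * X := by
          rw [div_le_iff₀ hP0]
          have h3 : 2 * C / ε ≤ P := by linarith
          rw [div_le_iff₀ hε] at h3
          nlinarith
  have h3 : ‖∑ a ∈ (ZB X).filter (G P), ez (ll t s a)‖ ≤ ε / 2 * X := by
    refine (csum' P t s hts X).trans ?_
    rw [← hK]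
    have h4 : 8 * K ≤ Real.sqrt X * ε := by
      rwa [div_le_iff₀ hε] at hsq
    calc K * (3 * Real.sqrt X + 1) ≤ K * (4 * Real.sqrt X) := by
          refine mul_le_mul_of_nonneg_left ?_ hK0
          linarith
      _ = (8 * K) * Real.sqrt X / 2 := by ring
      _ ≤ (Real.sqrt X * ε) * Real.sqrt X / 2 := by
          gcongr
      _ = ε / 2 * (Real.sqrt X * Real.sqrt X) := by ring
      _ = ε / 2 * X := by rw [hss]
  rw [h1]
  calc _ ≤ _ := norm_sub_le _ _
    _ ≤ ε / 2 * X + ε / 2 * X := add_le_add h3 h2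
    _ = ε * X := by ring

/-- the labels of the elements that are `1` modulo `9` -/
theorem one_iff {a : Ei} (h : prm a) : (9 : Ei) ∣ a - 1 ↔ nq a = 0 ∧ mq a = 0 := by
  constructor
  · intro h9
    have h1 : prm (1 : Ei) := prm_one
    have e1 : nq (1 : Ei) = 0 := by decide
    have e2 : mq (1 : Ei) = 0 := by decide
    rw [nq_per h9 h, mq_per h9 h]
    exact ⟨e1, e2⟩
  · rintro ⟨h1, h2⟩
    obtain ⟨b, hb, hb1, hb2⟩ := prm_shape h
    rw [mq_of hb2, ZMod.intCast_zmod_eq_zero_iff_dvd] at h2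
    obtain ⟨y, hy⟩ := h2
    rw [nq_zero h] at h1
    obtain ⟨k, hk⟩ := h1
    have h3 : nr a - 1 = 3 * (2 * b.re - b.im) + 9 * (b.re ^ 2 - b.re * b.im + b.im ^ 2) := by
      unfold Pool.Agent.Y692.QS.nr
      rw [hb1, hb2]
      ring
    have h4 : (3 : ℤ) ∣ b.re := by
      push_cast at hy
      rw [hy] at h3
      omega
    obtain ⟨x, hx⟩ := h4
    refine ⟨⟨x, y⟩, ?_⟩
    have h5 : b = 3 * ⟨x, y⟩ := by
      refine QuadraticAlgebra.ext ?_ ?_
      · rw [hx]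
        simp [QuadraticAlgebra.re_ofNat, QuadraticAlgebra.im_ofNat]
      · push_cast at hy
        rw [hy]
        simp [QuadraticAlgebra.re_ofNat, QuadraticAlgebra.im_ofNat]
    rw [hb, h5]
    ring

theorem card_CF9 (X : ℕ) : {D : Ei | nr D ≤ X ∧ ClP D ∧ (9 : Ei) ∣ D - 1}.ncard =
    ((CF X).filter fun D => nq D = 0 ∧ mq D = 0).card := by
  rw [← Set.ncard_coe_finset]
  congr 1
  ext D
  unfold Pool.Agent.N883.FF.Den3.CF
  rw [coe_filter, Set.mem_ofPred_eq, Set.mem_ofPred_eq, mem_filter, mem_ZB, and_assoc]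
  have h1 : nr D ≤ X ↔ nrm D ≤ X := by
    rw [← nrm_cast]
    exact Nat.cast_le
  rw [h1]
  constructor
  · rintro ⟨h2, h3, h4⟩
    exact ⟨h2, h3, (one_iff h3.1).1 h4⟩
  · rintro ⟨h2, h3, h4⟩
    exact ⟨h2, h3, (one_iff h3.1).2 h4⟩

theorem nine_card (X : ℕ) : (9 : ℂ) * (((CF X).filter fun D => nq D = 0 ∧ mq D = 0).card : ℂ) =
    ((CF X).card : ℂ) + ∑ p ∈ (univ : Finset (ZMod 3 × ZMod 3)).filter (fun p => p ≠ (0, 0)),
      ∑ a ∈ CF X, ez (ll p.1 p.2 a) := by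
  have h1 : ∀ a : Ei, ∑ p : ZMod 3 × ZMod 3, ez (ll p.1 p.2 a) =
      if nq a = 0 ∧ mq a = 0 then 9 else 0 := by
    intro a
    have e1 : ∑ p : ZMod 3 × ZMod 3, ez (ll p.1 p.2 a) =
        (∑ t : ZMod 3, ez (t * nq a)) * ∑ s : ZMod 3, ez (s * mq a) := by
      rw [sum_mul_sum, ← univ_product_univ, sum_product]
      refine sum_congr rfl fun t _ => sum_congr rfl fun s _ => ?_
      exact ez_add _ _
    rw [e1, sum_ez, sum_ez]
    by_cases h2 : nq a = 0 <;> by_cases h3 : mq a = 0 <;> simp [h2, h3]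
    norm_num
  have h2 : ∑ p : ZMod 3 × ZMod 3, ∑ a ∈ CF X, ez (ll p.1 p.2 a) =
      (9 : ℂ) * (((CF X).filter fun D => nq D = 0 ∧ mq D = 0).card : ℂ) := by
    rw [sum_comm, sum_congr rfl (fun a _ => h1 a), ← sum_filter, sum_const, nsmul_eq_mul, mul_comm]
  rw [← h2, ← sum_filter_add_sum_filter_not univ (fun p : ZMod 3 × ZMod 3 => p = (0, 0))]
  congr 1
  have h3 : (univ : Finset (ZMod 3 × ZMod 3)).filter (fun p => p = (0, 0)) = {(0, 0)} := by
    ext p
    simp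
  rw [h3, sum_singleton]
  have h4 : ∀ a ∈ CF X, ez (ll ((0, 0) : ZMod 3 × ZMod 3).1 ((0, 0) : ZMod 3 × ZMod 3).2 a) = 1 := by
    intro a _
    unfold ll
    simp only [zero_mul, add_zero]
    exact ez_zero
  rw [sum_congr rfl h4, sum_const, nsmul_eq_mul, mul_one]

/-- SM/DEN -/
theorem t_DEN9 : S_DEN9 := by
  obtain ⟨⟨c, hc, X₀, hlow0⟩, -⟩ := Pool.Agent.N883.FF.den3
  have hlow : ∀ X : ℕ, X₀ ≤ X → c * X ≤ ((CF X).card : ℝ) := by
    intro X hX
    rw [← card_CF]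
    exact hlow0 X hX
  show Filter.Tendsto _ _ _
  rw [Metric.tendsto_atTop]
  intro ε hε
  have hsm : ∀ p : ZMod 3 × ZMod 3, p ≠ (0, 0) → ∃ X₁ : ℕ, ∀ X : ℕ, X₁ ≤ X →
      ‖∑ a ∈ CF X, ez (ll p.1 p.2 a)‖ ≤ (c * ε) * X := by
    intro p hp
    refine small p.1 p.2 ?_ (c * ε) (by positivity)
    by_contra hcon
    push Not at hcon
    exact hp (Prod.ext hcon.1 hcon.2)
  have hsm' : ∀ p : ZMod 3 × ZMod 3, ∃ X₁ : ℕ, p ≠ (0, 0) → ∀ X : ℕ, X₁ ≤ X →
      ‖∑ a ∈ CF X, ez (ll p.1 p.2 a)‖ ≤ (c * ε) * X := by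
    intro p
    by_cases hp : p = (0, 0)
    · exact ⟨0, fun h => absurd hp h⟩
    · obtain ⟨X₁, h⟩ := hsm p hp
      exact ⟨X₁, fun _ => h⟩
  choose f hf using hsm'
  refine ⟨max (max X₀ 1) (univ.sup f), fun X hX => ?_⟩
  have hX0 : X₀ ≤ X := le_trans (le_trans (le_max_left _ _) (le_max_left _ _)) hX
  have hXp : 1 ≤ X := le_trans (le_trans (le_max_right _ _) (le_max_left _ _)) hX
  have hXf : ∀ p, f p ≤ X := fun p =>
    (Finset.le_sup (f := f) (mem_univ p)).trans ((le_max_right _ _).trans hX)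
  rw [card_CF, card_CF9, Real.dist_eq]
  have hl := hlow X hX0
  have hXr : (0 : ℝ) < X := by exact_mod_cast hXp
  have hn : (0 : ℝ) < ((CF X).card : ℝ) := lt_of_lt_of_le (by positivity) hl
  set n : ℝ := ((CF X).card : ℝ) with hn'
  set m : ℝ := (((CF X).filter fun D => nq D = 0 ∧ mq D = 0).card : ℝ) with hm'
  have h3 : |9 * m - n| ≤ 8 * (c * ε * X) := by
    have h4 := nine_card X
    have h5 : ((9 * m - n : ℝ) : ℂ) = ∑ p ∈ (univ : Finset (ZMod 3 × ZMod 3)).filter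
        (fun p => p ≠ (0, 0)), ∑ a ∈ CF X, ez (ll p.1 p.2 a) := by
      rw [hm', hn']
      push_cast
      linear_combination h4
    rw [← Real.norm_eq_abs, ← Complex.norm_real, h5]
    have h6 : ((univ : Finset (ZMod 3 × ZMod 3)).filter (fun p => p ≠ (0, 0))).card = 8 := by
      decide
    calc _ ≤ ∑ p ∈ (univ : Finset (ZMod 3 × ZMod 3)).filter (fun p => p ≠ (0, 0)),
          ‖∑ a ∈ CF X, ez (ll p.1 p.2 a)‖ := norm_sum_le _ _
      _ ≤ ∑ p ∈ (univ : Finset (ZMod 3 × ZMod 3)).filter (fun p => p ≠ (0, 0)), (c * ε) * X :=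
        sum_le_sum fun p hp => hf p (mem_filter.1 hp).2 X (hXf p)
      _ = 8 * (c * ε * X) := by
        rw [sum_const, h6, nsmul_eq_mul]
        push_cast
        ring
  have h6 : m / n - 1 / 9 = (9 * m - n) / (9 * n) := by
    field_simp
  rw [h6, abs_div, abs_of_pos (by positivity : (0 : ℝ) < 9 * n), div_lt_iff₀ (by positivity)]
  calc |9 * m - n| ≤ 8 * (c * ε * X) := h3
    _ = 8 * ε * (c * X) := by ring
    _ ≤ 8 * ε * n := by gcongr
    _ < ε * (9 * n) := by nlinarith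

end Pool.Agent.N300.SM
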